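import Pool.Agent.Run7.h284.PS.Circ

/-!
# The average sensitivity of formulas (Khrapchenko's bound)

A formula with AND, OR and NOT gates, the leaves of which are arbitrary functions of sets of `t_l`
input bits, has average sensitivity at most the square root of the sum of the numbers `t_l ^ 2`.
-/

set_option autoImplicit false

namespace Pool.Agent.H284.KH

open Finset H568R2 Pool.Agent.H284.PS

/-- Formulas with AND, OR and NOT gates; a leaf is an arbitrary function `g` of the inputs in a finite
set `s`. -/
inductive Fml (X : Type) : Type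
  | leaf (s : Finset X) (g : (X → Bool) → Bool) : Fml X
  | neg (f : Fml X) : Fml X
  | and (f g : Fml X) : Fml X
  | or (f g : Fml X) : Fml X

variable {X : Type} [DecidableEq X]

/-- the value of a formula at the input `y`; the leaf `(s, g)` has the value of `g` at the input which
agrees with `y` in `s` and is false outside `s` -/
def Fml.eval (y : X → Bool) : Fml X → Bool
  | .leaf s g => g fun x => if x ∈ s then y x else false
  | .neg f => !(f.eval y)
  | .and f g => f.eval y && g.eval y
  | .or f g => f.eval y || g.eval y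

/-- the sum over the leaves of the square of the number of inputs in `U` which the leaf reads -/
def Fml.cost (U : Finset X) : Fml X → ℕ
  | .leaf s _ => (s ∩ U).card ^ 2
  | .neg f => f.cost U
  | .and f g => f.cost U + g.cost U
  | .or f g => f.cost U + g.cost U

section edges

variable {I : Type} [Fintype I] [DecidableEq I]

omit [Fintype I] in
lemma flip_flip (z : I → Bool) (i : I) : PS.flip (PS.flip z i) i = z := by
  funext j
  unfold PS.flip
  by_cases h : j = i
  · subst h
    simp
  · simp [Function.update_of_ne h]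

/-- the number of edges of the cube between `A` and `B` -/
def EE (A B : Finset (I → Bool)) : ℕ := ∑ i, (A.filter fun a => PS.flip a i ∈ B).card

lemma EE_comm (A B : Finset (I → Bool)) : EE A B = EE B A := by
  unfold EE
  apply Finset.sum_congr rfl
  intro i _
  apply Finset.card_bij (fun a _ => PS.flip a i)
  · intro a ha
    rw [Finset.mem_filter] at ha ⊢
    exact ⟨ha.2, by rw [flip_flip]; exact ha.1⟩
  · intro a _ b _ hab
    rw [← flip_flip a i, hab, flip_flip]
  · intro b hb
    rw [Finset.mem_filter] at hb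
    exact ⟨PS.flip b i, Finset.mem_filter.2 ⟨hb.2, by rw [flip_flip]; exact hb.1⟩,
      flip_flip b i⟩

lemma EE_split (A B : Finset (I → Bool)) (P : (I → Bool) → Prop) [DecidablePred P] :
    EE A B = EE A (B.filter P) + EE A (B.filter fun b => ¬ P b) := by
  unfold EE
  rw [← Finset.sum_add_distrib]
  apply Finset.sum_congr rfl
  intro i _
  rw [← Finset.card_filter_add_card_filter_not (s := A.filter fun a => PS.flip a i ∈ B)
    (p := fun a => P (PS.flip a i)), Finset.filter_filter, Finset.filter_filter]
  simp only [Finset.mem_filter]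

lemma EE_le (A B : Finset (I → Bool)) (T : Finset I)
    (h : ∀ a ∈ A, ∀ i, PS.flip a i ∈ B → i ∈ T) : EE A B ≤ T.card * A.card := by
  unfold EE
  rw [← Finset.sum_subset (Finset.subset_univ T) (fun i _ hi => by
    rw [Finset.card_eq_zero, Finset.filter_eq_empty_iff]
    intro a ha hb
    exact hi (h a ha i hb))]
  refine (Finset.sum_le_sum fun i _ => Finset.card_filter_le A _).trans (le_of_eq ?_)
  rw [Finset.sum_const, smul_eq_mul]

end edges

lemma amgm {x p q : ℝ} (hp : 0 ≤ p) (hq : 0 ≤ q) (h : x ^ 2 ≤ p * q) : 2 * x ≤ p + q := by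
  by_contra hcon
  push Not at hcon
  have h1 : 0 ≤ p + q := by linarith
  have h2 : (p + q) ^ 2 < (2 * x) ^ 2 := pow_lt_pow_left₀ hcon h1 (by norm_num)
  nlinarith [sq_nonneg (p - q)]

lemma cs {a b L₁ L₂ A B₁ B₂ : ℝ} (hL₁ : 0 ≤ L₁) (hL₂ : 0 ≤ L₂) (hA : 0 ≤ A)
    (hB₁ : 0 ≤ B₁) (hB₂ : 0 ≤ B₂) (h1 : a ^ 2 ≤ L₁ * A * B₁) (h2 : b ^ 2 ≤ L₂ * A * B₂) :
    (a + b) ^ 2 ≤ (L₁ + L₂) * A * (B₁ + B₂) := by
  have h3 : 2 * (a * b) ≤ L₁ * A * B₂ + L₂ * A * B₁ := by
    apply amgm (by positivity) (by positivity)
    calc (a * b) ^ 2 = a ^ 2 * b ^ 2 := by ring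
      _ ≤ (L₁ * A * B₁) * (L₂ * A * B₂) := mul_le_mul h1 h2 (sq_nonneg _) (by positivity)
      _ = _ := by ring
  nlinarith

section khr

variable {I : Type} [Fintype I] [DecidableEq I]

/-- **Khrapchenko's bound.** -/
theorem khr (σ : (I → Bool) → (X → Bool)) (hσ : Single σ) (U : Finset X)
    (hU : ∀ x, x ∉ U → ∀ z i, σ (PS.flip z i) x = σ z x) (f : Fml X) :
    ∀ A B : Finset (I → Bool), (∀ a ∈ A, f.eval (σ a) = true) → (∀ b ∈ B, f.eval (σ b) = false) →
      (EE A B : ℝ) ^ 2 ≤ (f.cost U : ℝ) * A.card * B.card := by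
  classical
  induction f with
  | leaf s g =>
    intro A B hA hB
    choose ι β hιβ using hσ
    obtain ⟨T, hT⟩ : ∃ T : Finset I, T = (s ∩ U).image ι := ⟨_, rfl⟩
    have hTc : T.card ≤ (s ∩ U).card := by rw [hT]; exact Finset.card_image_le
    have key : ∀ a ∈ A, ∀ i, PS.flip a i ∈ B → i ∈ T := by
      intro a ha i hi
      by_contra hcon
      have h1 := hA a ha
      have h2 := hB _ hi
      have h3 : (fun x => if x ∈ s then σ (PS.flip a i) x else false) =
          fun x => if x ∈ s then σ a x else false := by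
        funext x
        by_cases hx : x ∈ s
        · rw [if_pos hx, if_pos hx]
          by_cases hxU : x ∈ U
          · rw [hιβ, hιβ]
            have h4 : ι x ≠ i := by
              rintro rfl
              apply hcon
              rw [hT]
              exact Finset.mem_image_of_mem _ (Finset.mem_inter.2 ⟨hx, hxU⟩)
            unfold PS.flip
            rw [Function.update_of_ne h4]
          · exact hU x hxU a i
        · rw [if_neg hx, if_neg hx]
      have h5 : g (fun x => if x ∈ s then σ a x else false) = true := h1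
      have h6 : g (fun x => if x ∈ s then σ (PS.flip a i) x else false) = false := h2
      rw [h3, h5] at h6
      exact absurd h6 (by decide)
    have key' : ∀ b ∈ B, ∀ i, PS.flip b i ∈ A → i ∈ T := by
      intro b hb i hi
      exact key _ hi i (by rw [flip_flip]; exact hb)
    have e1 : (EE A B : ℝ) ≤ T.card * A.card := by exact_mod_cast EE_le A B T key
    have e2 : (EE A B : ℝ) ≤ T.card * B.card := by
      rw [EE_comm]
      exact_mod_cast EE_le B A T key'
    have e3 : (T.card : ℝ) ≤ (s ∩ U).card := by exact_mod_cast hTc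
    have e4 : ((Fml.leaf s g).cost U : ℝ) = ((s ∩ U).card : ℝ) ^ 2 := by
      show (((s ∩ U).card ^ 2 : ℕ) : ℝ) = _
      push_cast
      rfl
    rw [e4]
    have e5 : (0 : ℝ) ≤ EE A B := Nat.cast_nonneg _
    calc (EE A B : ℝ) ^ 2 = EE A B * EE A B := sq _
      _ ≤ (T.card * A.card) * (T.card * B.card) := mul_le_mul e1 e2 e5 (by positivity)
      _ = (T.card : ℝ) ^ 2 * (A.card * B.card) := by ring
      _ ≤ ((s ∩ U).card : ℝ) ^ 2 * (A.card * B.card) :=
          mul_le_mul_of_nonneg_right (pow_le_pow_left₀ (Nat.cast_nonneg _) e3 2) (by positivity)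
      _ = _ := by ring
  | neg f ih =>
    intro A B hA hB
    have h1 := ih B A (fun b hb => by
      have := hB b hb
      simpa [Fml.eval] using this) (fun a ha => by
      have := hA a ha
      simpa [Fml.eval] using this)
    rw [EE_comm]
    refine h1.trans (le_of_eq ?_)
    show (f.cost U : ℝ) * B.card * A.card = (f.cost U : ℝ) * A.card * B.card
    ring
  | and f g ihf ihg =>
    intro A B hA hB
    have hA1 : ∀ a ∈ A, f.eval (σ a) = true ∧ g.eval (σ a) = true := by
      intro a ha
      have := hA a ha
      simpa [Fml.eval] using this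
    have h1 := ihf A (B.filter fun b => f.eval (σ b) = false) (fun a ha => (hA1 a ha).1)
      (fun b hb => (Finset.mem_filter.1 hb).2)
    have h2 := ihg A (B.filter fun b => ¬ f.eval (σ b) = false) (fun a ha => (hA1 a ha).2)
      (fun b hb => by
        obtain ⟨hb1, hb2⟩ := Finset.mem_filter.1 hb
        have := hB b hb1
        have h3 : (f.eval (σ b) && g.eval (σ b)) = false := this
        cases h4 : f.eval (σ b) with
        | false => exact absurd h4 hb2
        | true => rw [h4] at h3; simpa using h3)
    rw [EE_split A B fun b => f.eval (σ b) = false]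
    have h3 := cs (Nat.cast_nonneg _) (Nat.cast_nonneg _) (Nat.cast_nonneg _)
      (Nat.cast_nonneg _) (Nat.cast_nonneg _) h1 h2
    push_cast
    refine h3.trans (le_of_eq ?_)
    have h4 : (((B.filter fun b => f.eval (σ b) = false).card : ℝ) +
        ((B.filter fun b => ¬ f.eval (σ b) = false).card : ℝ)) = B.card := by
      exact_mod_cast Finset.card_filter_add_card_filter_not (s := B)
        (fun b => f.eval (σ b) = false)
    rw [h4]
    congr 2
    show (f.cost U : ℝ) + g.cost U = ((f.cost U + g.cost U : ℕ) : ℝ)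
    push_cast
    rfl
  | or f g ihf ihg =>
    intro A B hA hB
    have hB1 : ∀ b ∈ B, f.eval (σ b) = false ∧ g.eval (σ b) = false := by
      intro b hb
      have := hB b hb
      simpa [Fml.eval] using this
    have h1 := ihf (A.filter fun a => f.eval (σ a) = true) B
      (fun a ha => (Finset.mem_filter.1 ha).2) (fun b hb => (hB1 b hb).1)
    have h2 := ihg (A.filter fun a => ¬ f.eval (σ a) = true) B
      (fun a ha => by
        obtain ⟨ha1, ha2⟩ := Finset.mem_filter.1 ha
        have := hA a ha1
        have h3 : (f.eval (σ a) || g.eval (σ a)) = true := this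
        cases h4 : f.eval (σ a) with
        | true => exact absurd h4 ha2
        | false => rw [h4] at h3; simpa using h3) (fun b hb => (hB1 b hb).2)
    rw [EE_comm] at h1 h2
    rw [EE_comm, EE_split B A fun a => f.eval (σ a) = true]
    have h1' : (EE B (A.filter fun a => f.eval (σ a) = true) : ℝ) ^ 2 ≤
        (f.cost U : ℝ) * B.card * (A.filter fun a => f.eval (σ a) = true).card :=
      h1.trans (le_of_eq (by ring))
    have h2' : (EE B (A.filter fun a => ¬ f.eval (σ a) = true) : ℝ) ^ 2 ≤
        (g.cost U : ℝ) * B.card * (A.filter fun a => ¬ f.eval (σ a) = true).card :=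
      h2.trans (le_of_eq (by ring))
    have h3 := cs (Nat.cast_nonneg _) (Nat.cast_nonneg _) (Nat.cast_nonneg _)
      (Nat.cast_nonneg _) (Nat.cast_nonneg _) h1' h2'
    push_cast
    refine h3.trans (le_of_eq ?_)
    have h4 : (((A.filter fun a => f.eval (σ a) = true).card : ℝ) +
        ((A.filter fun a => ¬ f.eval (σ a) = true).card : ℝ)) = A.card := by
      exact_mod_cast Finset.card_filter_add_card_filter_not (s := A)
        (fun a => f.eval (σ a) = true)
    rw [h4]
    have h5 : ((Fml.or f g).cost U : ℝ) = (f.cost U : ℝ) + g.cost U := by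
      show ((f.cost U + g.cost U : ℕ) : ℝ) = _
      push_cast
      rfl
    rw [h5]
    ring

lemma Ex_uw (F : (I → Bool) → ℝ) : Ex uw F = (∑ z, F z) / 2 ^ Fintype.card I := by
  unfold Ex
  rw [Finset.sum_div]
  apply Finset.sum_congr rfl
  intro z _
  unfold uw
  rw [Finset.prod_const, Finset.card_univ, one_div, inv_pow]
  field_simp

/-- **The average sensitivity of a formula is at most the square root of its cost.** -/
theorem avg_le (σ : (I → Bool) → (X → Bool)) (hσ : Single σ) (U : Finset X)
    (hU : ∀ x, x ∉ U → ∀ z i, σ (PS.flip z i) x = σ z x) (f : Fml X) :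
    Ex uw (fun z : I → Bool => (SS (fun z => f.eval (σ z)) z : ℝ)) ≤ Real.sqrt (f.cost U) := by
  classical
  obtain ⟨A, hA⟩ : ∃ A : Finset (I → Bool), A = univ.filter fun z => f.eval (σ z) = true :=
    ⟨_, rfl⟩
  obtain ⟨B, hB⟩ : ∃ B : Finset (I → Bool), B = univ.filter fun z => ¬ f.eval (σ z) = true :=
    ⟨_, rfl⟩
  have hcard : (A.card : ℝ) + B.card = 2 ^ Fintype.card I := by
    have h1 := Finset.card_filter_add_card_filter_not (s := (univ : Finset (I → Bool)))
      (fun z => f.eval (σ z) = true)
    rw [← hA, ← hB, Finset.card_univ, Fintype.card_fun, Fintype.card_bool] at h1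
    exact_mod_cast h1
  have hsum : (∑ z : I → Bool, SS (fun z => f.eval (σ z)) z) = EE A B + EE B A := by
    rw [← Finset.sum_filter_add_sum_filter_not univ (fun z => f.eval (σ z) = true), ← hA, ← hB]
    have e1 : ∀ C D : Finset (I → Bool), (∀ z ∈ C, ∀ i, (f.eval (σ (PS.flip z i)) ≠ f.eval (σ z) ↔
        PS.flip z i ∈ D)) → ∑ z ∈ C, SS (fun z => f.eval (σ z)) z = EE C D := by
      intro C D hCD
      unfold SS EE
      simp only [Finset.card_filter]
      rw [Finset.sum_comm]
      apply Finset.sum_congr rfl
      intro i _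
      apply Finset.sum_congr rfl
      intro z hz
      by_cases h : PS.flip z i ∈ D
      · rw [if_pos h, if_pos ((hCD z hz i).2 h)]
      · rw [if_neg h, if_neg (fun h2 => h ((hCD z hz i).1 h2))]
    rw [e1 A B, e1 B A]
    · intro z hz i
      rw [hB, Finset.mem_filter] at hz
      rw [hA, Finset.mem_filter]
      have h1 : f.eval (σ z) = false := by simpa using hz.2
      rw [h1]
      simp
    · intro z hz i
      rw [hA, Finset.mem_filter] at hz
      rw [hB, Finset.mem_filter, hz.2]
      simp
  have h1 := khr σ hσ U hU f A B (fun a ha => by rw [hA] at ha; exact (Finset.mem_filter.1 ha).2)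
    (fun b hb => by
      rw [hB] at hb
      have := (Finset.mem_filter.1 hb).2
      simpa using this)
  obtain ⟨P, hP⟩ : ∃ P : ℝ, P = 2 ^ Fintype.card I := ⟨_, rfl⟩
  have hP0 : 0 < P := by rw [hP]; positivity
  rw [Ex_uw, ← hP]
  have h2 : (∑ z : I → Bool, (SS (fun z => f.eval (σ z)) z : ℝ)) = 2 * EE A B := by
    have h3 : ((∑ z : I → Bool, SS (fun z => f.eval (σ z)) z : ℕ) : ℝ) = EE A B + EE B A := by
      exact_mod_cast hsum
    push_cast at h3
    rw [h3, EE_comm B A]
    ring
  rw [h2, div_le_iff₀ hP0]
  have h4 : (A.card : ℝ) * B.card ≤ (P / 2) ^ 2 := by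
    rw [← hP] at hcard
    nlinarith [sq_nonneg ((A.card : ℝ) - B.card)]
  have h5 : (EE A B : ℝ) ^ 2 ≤ f.cost U * (P / 2) ^ 2 := by
    refine h1.trans ?_
    rw [mul_assoc]
    exact mul_le_mul_of_nonneg_left h4 (Nat.cast_nonneg _)
  have h6 : (EE A B : ℝ) ≤ Real.sqrt (f.cost U) * (P / 2) := by
    have h7 : (EE A B : ℝ) ≤ Real.sqrt (f.cost U * (P / 2) ^ 2) := Real.le_sqrt_of_sq_le h5
    rwa [Real.sqrt_mul (Nat.cast_nonneg _), Real.sqrt_sq (by positivity)] at h7
  linarith

end khr

end Pool.Agent.H284.KH
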